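import Pool.Agent.MVK.Stmts

/-!
Squad MVK, row IBW: insertion into the blocks.
-/

set_option autoImplicit false

namespace Pool.Agent.MVK.H80

open Pool.Agent.Helper14_MV Pool.Agent.Helper2_MV Pool.Agent.MVD Pool.Agent.MVK

/-- the word inserted in front of the first block of `R` -/
def hd (U : ℕ → List ℕ) (U' : List ℕ) : List ℕ → List ℕ
  | [] => U'
  | r :: _ => U r

/-- the substitution -/
def sg (U V : ℕ → List ℕ) (U' : List ℕ) : List ℕ → ℕ → List ℕ
  | [], c => [c]
  | r :: R, c => if c = 3 * r + 2 then V r ++ ([3 * r + 2] ++ hd U U' R) else sg U V U' R c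

lemma sg_fix (U V : ℕ → List ℕ) (U' : List ℕ) (R : List ℕ) {c : ℕ} (hc : c % 3 ≠ 2) :
    sg U V U' R c = [c] := by
  induction R with
  | nil => rfl
  | cons r R ih =>
    have h : c ≠ 3 * r + 2 := by omega
    simp only [sg, if_neg h, ih]

lemma flatMap_fix (U V : ℕ → List ℕ) (U' : List ℕ) (R : List ℕ) {l : List ℕ} (hl : SFr l) :
    l.flatMap (sg U V U' R) = l := by
  induction l with
  | nil => rfl
  | cons c l ih =>
    rw [List.flatMap_cons, sg_fix U V U' R (hl c (List.mem_cons_self ..)),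
      ih (fun d hd => hl d (List.mem_cons_of_mem _ hd))]
    rfl

lemma flatMap_agree {l : List ℕ} {f g : ℕ → List ℕ} (h : ∀ c ∈ l, f c = g c) :
    l.flatMap f = l.flatMap g := by
  induction l with
  | nil => rfl
  | cons c l ih =>
    rw [List.flatMap_cons, List.flatMap_cons, h c (List.mem_cons_self ..),
      ih (fun d hd => h d (List.mem_cons_of_mem _ hd))]

lemma not_mem_Bw {R : List ℕ} {B : ℕ → List ℕ} {e : List ℕ} (hB : ∀ r ∈ R, SFr (B r))
    (he : SFr e) {r : ℕ} (hr : r ∉ R) : 3 * r + 2 ∉ Bw R B ++ e := by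
  intro hmem
  rcases List.mem_append.1 hmem with h | h
  · obtain ⟨s, hs, h2⟩ := List.mem_flatMap.1 h
    rcases List.mem_append.1 h2 with h3 | h3
    · exact hB s hs _ h3 (by omega)
    · have h4 := List.mem_singleton.1 h3
      have : r = s := by omega
      exact hr (this ▸ hs)
  · exact he _ h (by omega)

lemma claim (U V : ℕ → List ℕ) (U' : List ℕ) (B : ℕ → List ℕ) (e : List ℕ) (he : SFr e) :
    ∀ R : List ℕ, R.Nodup → (∀ r ∈ R, SFr (B r)) →
      hd U U' R ++ (Bw R B ++ e).flatMap (sg U V U' R) =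
        Bw R (fun r => U r ++ (B r ++ V r)) ++ (U' ++ e) := by
  intro R
  induction R with
  | nil =>
    intro _ _
    show U' ++ (([] : List ℕ) ++ e).flatMap (sg U V U' []) = [] ++ (U' ++ e)
    rw [List.nil_append, List.nil_append, flatMap_fix U V U' [] he]
  | cons r R ih =>
    intro hnd hB
    have hnd' := List.nodup_cons.1 hnd
    have hB' : ∀ s ∈ R, SFr (B s) := fun s hs => hB s (List.mem_cons_of_mem _ hs)
    have ih' := ih hnd'.2 hB'
    have hBr : SFr (B r) := hB r (List.mem_cons_self ..)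
    have e1 : Bw (r :: R) B ++ e = B r ++ ((3 * r + 2) :: (Bw R B ++ e)) := by
      simp [Bw]
    have e2 : (Bw R B ++ e).flatMap (sg U V U' (r :: R)) =
        (Bw R B ++ e).flatMap (sg U V U' R) := by
      apply flatMap_agree
      intro c hc
      have hne : c ≠ 3 * r + 2 := by
        rintro rfl
        exact not_mem_Bw hB' he hnd'.1 hc
      simp only [sg, if_neg hne]
    have e3 : sg U V U' (r :: R) (3 * r + 2) = V r ++ ([3 * r + 2] ++ hd U U' R) := by
      simp only [sg, if_true]
    rw [e1, List.flatMap_append, flatMap_fix U V U' (r :: R) hBr, List.flatMap_cons, e3, e2]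
    have e4 : Bw (r :: R) (fun r => U r ++ (B r ++ V r)) ++ (U' ++ e) =
        U r ++ (B r ++ (V r ++ ((3 * r + 2) ::
          (Bw R (fun r => U r ++ (B r ++ V r)) ++ (U' ++ e))))) := by
      simp [Bw]
    rw [e4, ← ih']
    simp [hd]

theorem ibw : IbwStmt := by
  intro β R B C U V e e' U' hnd hB hC he he' h
  have h1 := RR.append (RR.refl (β := β) (hd U U' R)) (RR.sub (sg U V U' R) h)
  rwa [claim U V U' B e he R hnd hB, claim U V U' C e' he' R hnd hC] at h1

end Pool.Agent.MVK.H80
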